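import Pool.Agent.Helper29.ZR.Props
import Pool.Agent.Helper48.SR.NearC

/-!
# MP_b55b7c_an, project ZR: packet AsrPC
-/

open scoped ENNReal NNReal InnerProductSpace ComplexOrder
open Filter Topology

attribute [-instance] CStarMatrix.instAlgebra CStarMatrix.instModule CStarMatrix.instSMul
  CStarMatrix.instMulAction CStarMatrix.instDistribMulAction

noncomputable section
namespace RC
universe u

namespace H51ZR

section
variable {A : Type u} [CStarAlgebra A] [PartialOrder A] [StarOrderedRing A]

theorem norm_one1 (a : A) : ‖one1 a‖ = ‖a‖ := by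
  have hinj : Function.Injective (one1H (A := A)) := by
    intro x y h
    have h1 : (one1H x : CStarMatrix Unit Unit A) () () = (one1H y) () () := by rw [h]
    exact h1
  exact NonUnitalStarAlgHom.norm_map (one1H (A := A)) hinj a

theorem one1_entry (x : CStarMatrix Unit Unit A) : one1 (x () ()) = x := by
  ext i j
  rfl

theorem entry_nonneg {L : CStarMatrix Unit Unit A} (hL : 0 ≤ L) : 0 ≤ L () () := by
  obtain ⟨s, hs⟩ := CStarAlgebra.nonneg_iff_eq_star_mul_self.1 hL
  have h : L () () = star (s () ()) * s () () := by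
    rw [hs, CStarMatrix.mul_apply]
    simp [CStarMatrix.star_apply]
  rw [h]
  exact star_mul_self_nonneg _

end

end H51ZR

open H51ZR in
theorem asrPC_51 (hLc : LcP.{u}) (hD : DimP.{u}) (hSw : CuSwapP.{u}) (hLe : CuLeAddP.{u})
    (hMo : QMonoP.{u}) : AsrPCP.{u} := by
  intro A _ _ _ h x η θ hη hθ
  obtain ⟨ν, _, _, c, hc0, hcr, hPC⟩ := h (θ / 2) (by positivity)
  obtain ⟨x', y, a, b, b', L, hn, hL, hLr, he⟩ := hPC Unit (one1 x) η (θ / 2) hη (by positivity)
  have hL0 : 0 ≤ L () () := entry_nonneg hL
  obtain ⟨W, hW⟩ : ∃ W : CStarMatrix ν Unit A, W = c * y := ⟨_, rfl⟩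
  -- the equation in the entries
  have hE : a () () * x' () () + (∑ i, b () i * W i () + b' () () * L () ()) = 1 := by
    have h1 : (a * x' + b * (c * y) + b' * L) () () = (1 : CStarMatrix Unit Unit A) () () := by
      rw [he]
    have h2 : (a * x' + b * (c * y) + b' * L) () ()
        = (a * x') () () + (b * W) () () + (b' * L) () () := by rw [hW]; rfl
    rw [h2, CStarMatrix.mul_apply, CStarMatrix.mul_apply, CStarMatrix.mul_apply] at h1
    simp only [Finset.univ_unique, Finset.sum_singleton] at h1
    rw [add_assoc] at h1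
    rw [CStarMatrix.one_apply] at h1
    simpa using h1
  let e := Fintype.equivFin (ν ⊕ Unit)
  have hsum : ∀ F : ν ⊕ Unit → A, ∑ i : Fin (Fintype.card (ν ⊕ Unit)), F (e.symm i)
      = ∑ i : ν, F (Sum.inl i) + F (Sum.inr ()) := by
    intro F
    rw [Equiv.sum_comp e.symm F, Fintype.sum_sum_type]
    simp
  have hl := hLc A (Fintype.card (ν ⊕ Unit)) (x' () ()) (a () ())
    (fun i => Sum.elim (fun i => b () i) (fun _ => b' () ()) (e.symm i))
    (fun i => Sum.elim (fun i => W i ()) (fun _ => L () ()) (e.symm i)) (by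
      rw [hsum (fun s => Sum.elim (fun i => b () i) (fun _ => b' () ()) s *
        Sum.elim (fun i => W i ()) (fun _ => L () ()) s)]
      exact hE)
  rw [hsum (fun s => sq (Sum.elim (fun i => W i ()) (fun _ => L () ()) s))] at hl
  simp only [Sum.elim_inl, Sum.elim_inr] at hl
  refine ⟨x' () (), _, ?_, hl.1, hl.2, ?_⟩
  · rw [← norm_one1]
    have : one1 (x - x' () ()) = one1 x - x' := by
      rw [← one1_entry x']
      exact map_sub (one1H (A := A)) x (x' () ())
    rw [this]
    exact hn
  · intro φ σ hq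
    obtain ⟨hD0, hD1, hD2, hD3⟩ := hD A σ
    have hS0 : 0 ≤ ∑ i : ν, sq (W i ()) := Finset.sum_nonneg fun i _ => star_mul_self_nonneg _
    have hq0 : 0 ≤ sq (L () ()) := star_mul_self_nonneg _
    have h2 := hD1 2 ![∑ i : ν, sq (W i ()), sq (L () ())] (by
      intro i
      fin_cases i
      · exact hS0
      · exact hq0)
    simp only [Fin.sum_univ_two, Matrix.cons_val_zero, Matrix.cons_val_one] at h2
    refine h2.trans ?_
    have h3 : σ.dim (one1 (sq (L () ()))) ≤ θ / 2 := by
      have h4 := hD2 (L () ()) 1 1 hL0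
      rw [one_mul, mul_one, one1_entry] at h4
      exact h4.trans (hLr φ σ hq)
    have h5 : σ.dim (one1 (∑ i : ν, sq (W i ()))) ≤ θ / 2 := by
      have e1 : one1 (∑ i : ν, sq (W i ())) = W.conjTranspose * W := by
        ext i j
        rw [CStarMatrix.mul_apply]
        rfl
      have e2 : W * W.conjTranspose = c * (y * y.conjTranspose) * c := by
        have hcs : c.conjTranspose = c := hc0.isSelfAdjoint
        rw [hW, cm_conj_mul, hcs]
        simp only [cm_assoc]
      have hp : 0 ≤ y * y.conjTranspose := cm_mul_conj_nonneg y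
      rw [e1]
      refine (nearC_dim_swap hSw hMo σ W).trans ?_
      rw [e2]
      refine (nearC_dim_le hLe hMo σ (‖y * y.conjTranspose‖ * ‖c‖) (by positivity) _ _ ?_ hc0
        (nearC_sand c _ hc0 hp)).trans (hcr φ σ hq)
      rw [← e2]
      exact cm_mul_conj_nonneg W
    linarith

end RC
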